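import Mathlib
import Pool.Agent.H86.BD.Count

set_option autoImplicit false

namespace Pool.Agent.Results.MP_3a77f1_co.AlmostAllLarge

open Finset Pool.Agent.K7.H73.BD Pool.Agent.Results.MP_3a77f1_co.AtMostThreeLetters
open Pool.Agent.H86.BD

/-- For every number `n ≥ 2` of letters and every `θ < 1 - 1/n`, the proportion of the instances
with total demand `D` whose optimal bottleneck deviation is at most `θ` is at most `C D^(-c)`.
For `n ≥ 5` this applies to `θ = 3/4`. -/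
theorem result :
    ∀ n : ℕ, 2 ≤ n → ∀ θ : ℝ, θ < 1 - 1 / n → ∃ C c : ℝ, 0 < c ∧ ∀ D : ℕ, 0 < D →
      ((({d : Fin n → ℕ | ((∀ i, 0 < d i) ∧ ∑ i, d i = D) ∧ Bstar d ≤ θ}).ncard : ℕ) : ℝ) ≤
        C * (D : ℝ) ^ (-c) * (({d : Fin n → ℕ | (∀ i, 0 < d i) ∧ ∑ i, d i = D}).ncard : ℕ) := by
  classical
  intro n hn θ hθ
  obtain ⟨m, rfl⟩ : ∃ m, n = m + 1 := ⟨n - 1, by omega⟩
  have hm : 1 ≤ m := by omega
  have hm' : (1 : ℝ) ≤ m := by exact_mod_cast hm
  have hθ1 : θ < m / (m + 1) := by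
    refine hθ.trans_eq ?_
    push_cast
    field_simp
    ring
  -- choose `M` and the digit `c`
  set η : ℝ := m / (m + 1) - max θ ((m - 1) / m) with hη
  have hη0 : 0 < η := by
    rw [hη, sub_pos, max_lt_iff]
    refine ⟨hθ1, ?_⟩
    rw [div_lt_div_iff₀ (by linarith) (by linarith)]
    nlinarith
  obtain ⟨M, hM⟩ := exists_nat_gt (max 2 (2 / η))
  have hM2 : (2 : ℝ) < M := (le_max_left _ _).trans_lt hM
  have hMη : 2 / η < M := (le_max_right _ _).trans_lt hM
  have hM0 : 0 < M := by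
    have : (0 : ℝ) < M := by linarith
    exact_mod_cast this
  have hM' : (0 : ℝ) < M := by linarith
  set c : ℕ := m * M / (m + 1) - 1 with hc
  have hq1 : 1 ≤ m * M / (m + 1) := by
    rw [Nat.le_div_iff_mul_le (by omega)]
    have : 2 < M := by exact_mod_cast hM2
    nlinarith
  have hc2 : (c + 1) * (m + 1) ≤ m * M := by
    have h1 : c + 1 = m * M / (m + 1) := by omega
    rw [h1]
    exact Nat.div_mul_le_self _ _
  have hc3 : (m : ℝ) * M < (c + 2) * (m + 1) := by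
    have h1 : c + 2 = m * M / (m + 1) + 1 := by omega
    have h2 : m * M < (m * M / (m + 1) + 1) * (m + 1) := by
      rw [← Nat.div_lt_iff_lt_mul (by omega)]
      exact Nat.lt_succ_self _
    rw [← h1] at h2
    exact_mod_cast h2
  have hcM : (m : ℝ) / (m + 1) - η < c / M := by
    have h1 : (m : ℝ) / (m + 1) < (c + 2) / M := by
      rw [div_lt_div_iff₀ (by linarith) hM']
      exact hc3
    have h2 : 2 / (M : ℝ) < η := by
      rw [div_lt_iff₀ hη0] at hMη
      rw [div_lt_iff₀ hM']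
      linarith
    rw [add_div] at h1
    linarith
  have hmax : max θ (((m : ℝ) - 1) / m) < c / M := by
    have : (m : ℝ) / (m + 1) - η = max θ ((m - 1) / m) := by rw [hη]; ring
    rw [← this]
    exact hcM
  have hθc : θ < c / M := (le_max_left _ _).trans_lt hmax
  have hc1 : ((m : ℝ) - 1) * M < m * c := by
    have h1 : ((m : ℝ) - 1) / m < c / M := (le_max_right _ _).trans_lt hmax
    rw [div_lt_div_iff₀ (by linarith) hM'] at h1
    linarith
  have hcM' : c < M := by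
    have h1 : (c + 1) * (m + 1) ≤ m * M := hc2
    by_contra h2
    push Not at h2
    nlinarith
  -- the constants
  set lam : ℝ := ((M : ℝ) ^ m - 1) / (M : ℝ) ^ m with hlam
  have hMm : (2 : ℝ) < (M : ℝ) ^ m := by
    calc (2 : ℝ) < M := hM2
      _ = (M : ℝ) ^ 1 := (pow_one _).symm
      _ ≤ (M : ℝ) ^ m := pow_le_pow_right₀ (by linarith) hm
  have hlam0 : 0 < lam := by
    rw [hlam]
    apply div_pos <;> linarith
  have hlam1 : lam < 1 := by
    rw [hlam, div_lt_one (by linarith)]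
    linarith
  have hlogM : 0 < Real.log M := Real.log_pos (by linarith)
  have hloglam : Real.log lam < 0 := Real.log_neg hlam0 hlam1
  set e : ℝ := -Real.log lam / Real.log M with he
  have he0 : 0 < e := div_pos (by linarith) hlogM
  refine ⟨2 ^ m * lam⁻¹ * (2 * (m + 1)) ^ m, e, he0, ?_⟩
  intro D hD
  have hD' : (0 : ℝ) < D := by exact_mod_cast hD
  by_cases hDn : D < m + 1
  · -- no instances at all
    have hempty : {d : Fin (m + 1) → ℕ | ((∀ i, 0 < d i) ∧ ∑ i, d i = D) ∧ Bstar d ≤ θ} = ∅ := by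
      ext d
      simp only [Set.mem_setOf_eq, Set.mem_empty_iff_false, iff_false]
      rintro ⟨⟨h1, h2⟩, -⟩
      have h3 : ∑ _i : Fin (m + 1), 1 ≤ ∑ i, d i := sum_le_sum fun i _ => h1 i
      rw [h2] at h3
      simp at h3
      omega
    rw [hempty, Set.ncard_empty]
    simp only [Nat.cast_zero]
    positivity
  push Not at hDn
  set J := Nat.log M D with hJ
  have hJ1 : M ^ J ≤ D := Nat.pow_log_le_self M (by omega)
  have hJ2 : D < M ^ (J + 1) := Nat.lt_pow_succ_log_self (by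
    have : 2 < M := by exact_mod_cast hM2
    omega) D
  -- small instances inject into the bad set
  have hcard1 : ({d : Fin (m + 1) → ℕ | ((∀ i, 0 < d i) ∧ ∑ i, d i = D) ∧ Bstar d ≤ θ}).ncard ≤
      #(badSet m M (fun _ => c) D J) := by
    rw [← Set.ncard_coe_finset]
    apply Set.ncard_le_ncard_of_injOn (fun d : Fin (m + 1) → ℕ => fun i : Fin m =>
      d (Fin.castSucc i))
    · rintro d ⟨hd, hB⟩
      exact small_sub_bad m M c hm hM0 θ hθc hc1 hc2 hθ1 D J hD hJ1 d hd hB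
    · rintro d ⟨⟨-, hd⟩, -⟩ d' ⟨⟨-, hd'⟩, -⟩ h
      funext i
      have h1 : ∀ i : Fin m, d (Fin.castSucc i) = d' (Fin.castSucc i) := fun i => congrFun h i
      refine Fin.lastCases ?_ (fun i => ?_) i
      · rw [Fin.sum_univ_castSucc] at hd hd'
        rw [sum_congr rfl fun i _ => h1 i] at hd
        omega
      · exact h1 i
  have hcard2 := card_badSet m M hM0 (fun _ => c) (fun _ => hcM') D J hD hJ1
  have hreal : (#(badSet m M (fun _ => c) D J) : ℝ) ≤ (2 * D) ^ m * lam ^ J := by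
    have h1 : (#(badSet m M (fun _ => c) D J) : ℝ) * ((M : ℝ) ^ J) ^ m ≤
        (2 * D) ^ m * ((M : ℝ) ^ m - 1) ^ J := by
      have h2 : ((M ^ m - 1 : ℕ) : ℝ) = (M : ℝ) ^ m - 1 := by
        rw [Nat.cast_sub (Nat.one_le_pow _ _ hM0)]
        push_cast
        ring
      rw [← h2]
      exact_mod_cast hcard2
    have h3 : (0 : ℝ) < ((M : ℝ) ^ J) ^ m := by positivity
    rw [← le_div_iff₀ h3] at h1
    refine h1.trans (le_of_eq ?_)
    rw [hlam, div_pow, ← pow_mul, ← pow_mul, mul_comm m J]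
    ring
  have hlamJ : lam ^ J ≤ lam⁻¹ * (D : ℝ) ^ (-e) := by
    have h1 : (D : ℝ) ^ e ≤ ((M : ℝ) ^ (J + 1)) ^ e := by
      apply Real.rpow_le_rpow hD'.le _ he0.le
      exact_mod_cast hJ2.le
    have h2 : ((M : ℝ) ^ (J + 1)) ^ e = (lam ^ (J + 1))⁻¹ := by
      rw [← Real.rpow_natCast, ← Real.rpow_mul hM'.le, mul_comm, Real.rpow_mul hM'.le]
      have h3 : (M : ℝ) ^ e = lam⁻¹ := by
        rw [Real.rpow_def_of_pos hM', he, mul_div_cancel₀ _ hlogM.ne', Real.exp_neg,
          Real.exp_log hlam0]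
      rw [h3, Real.rpow_natCast, inv_pow]
    rw [h2] at h1
    have h4 : 0 < lam ^ (J + 1) := by positivity
    have h5 : lam ^ (J + 1) ≤ (D : ℝ) ^ (-e) := by
      rw [Real.rpow_neg hD'.le]
      have h6 : 0 < (D : ℝ) ^ e := Real.rpow_pos_of_pos hD' e
      rw [le_inv_comm₀ h4 h6]
      exact h1
    have h7 : lam ^ J = lam⁻¹ * lam ^ (J + 1) := by
      rw [pow_succ]
      field_simp
    rw [h7]
    exact mul_le_mul_of_nonneg_left h5 (by positivity)
  have hall : (D : ℝ) ^ m ≤ (2 * (m + 1)) ^ m *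
      (({d : Fin (m + 1) → ℕ | (∀ i, 0 < d i) ∧ ∑ i, d i = D}).ncard : ℕ) := by
    have h1 := card_inst m D hm
    have h2 : (D : ℝ) ≤ 2 * (m + 1) * (D / (m + 1) : ℕ) := by
      have h3 : 1 ≤ D / (m + 1) := (Nat.one_le_div_iff (by omega)).2 hDn
      have h4 : D < (D / (m + 1) + 1) * (m + 1) := by
        rw [← Nat.div_lt_iff_lt_mul (by omega)]
        exact Nat.lt_succ_self _
      have h5 : D ≤ 2 * (m + 1) * (D / (m + 1)) := by nlinarith
      exact_mod_cast h5
    calc (D : ℝ) ^ m ≤ (2 * (m + 1) * (D / (m + 1) : ℕ)) ^ m :=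
          pow_le_pow_left₀ hD'.le h2 m
      _ = (2 * (m + 1)) ^ m * ((D / (m + 1) : ℕ) : ℝ) ^ m := by rw [mul_pow]
      _ ≤ _ := by
          apply mul_le_mul_of_nonneg_left _ (by positivity)
          exact_mod_cast h1
  calc ((({d : Fin (m + 1) → ℕ | ((∀ i, 0 < d i) ∧ ∑ i, d i = D) ∧ Bstar d ≤ θ}).ncard : ℕ) : ℝ)
      ≤ #(badSet m M (fun _ => c) D J) := by exact_mod_cast hcard1
    _ ≤ (2 * D) ^ m * lam ^ J := hreal
    _ ≤ (2 * D) ^ m * (lam⁻¹ * (D : ℝ) ^ (-e)) := by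
        apply mul_le_mul_of_nonneg_left hlamJ (by positivity)
    _ = (2 ^ m * lam⁻¹ * (D : ℝ) ^ (-e)) * (D : ℝ) ^ m := by rw [mul_pow]; ring
    _ ≤ (2 ^ m * lam⁻¹ * (D : ℝ) ^ (-e)) * ((2 * (m + 1)) ^ m *
        (({d : Fin (m + 1) → ℕ | (∀ i, 0 < d i) ∧ ∑ i, d i = D}).ncard : ℕ)) := by
        apply mul_le_mul_of_nonneg_left hall
        have : 0 < (D : ℝ) ^ (-e) := Real.rpow_pos_of_pos hD' _
        positivity
    _ = _ := by ring

end Pool.Agent.Results.MP_3a77f1_co.AlmostAllLarge
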