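import Mathlib
import Pool.Agent.H86.BD.Four

set_option autoImplicit false

namespace Pool.Agent.Results.MP_3a77f1_co.FourAlmostAll

open Finset Pool.Agent.K7.H73.BD Pool.Agent.Results.MP_3a77f1_co.AtMostThreeLetters
open Pool.Agent.Results.MP_3a77f1_co.FourLettersClosed Pool.Agent.H86.BD

/-- For four letters the explicit condition `¬ Window d ∧ ¬ Cong d` decides `B^* < 3/4` for all
but a proportion tending to zero of the instances. -/
theorem result :
    ∀ ε : ℝ, 0 < ε → ∃ D₀ : ℕ, ∀ D : ℕ, D₀ ≤ D →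
      ((({d : Fin 4 → ℕ | ((∀ i, 0 < d i) ∧ ∑ i, d i = D) ∧
        ¬ (Bstar d < 3 / 4 ↔ ¬ Window d ∧ ¬ Cong d)}).ncard : ℕ) : ℝ) ≤
        ε * (({d : Fin 4 → ℕ | (∀ i, 0 < d i) ∧ ∑ i, d i = D}).ncard : ℕ) := by
  classical
  intro ε hε
  set δ : ℝ := ε / 2048 with hδ
  have hδ0 : 0 < δ := by positivity
  obtain ⟨N, hN⟩ := exists_nat_gt (max 1 (4 / δ))
  have hN1 : (1 : ℝ) < N := (le_max_left _ _).trans_lt hN
  have hN2 : 4 / δ < N := (le_max_right _ _).trans_lt hN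
  have hN0 : 0 < N := by
    have : (0 : ℝ) < N := by linarith
    exact_mod_cast this
  obtain ⟨M, hM⟩ := exists_nat_gt (max 8 (8 * N / δ))
  have hM1 : (8 : ℝ) < M := (le_max_left _ _).trans_lt hM
  have hM2 : 8 * N / δ < M := (le_max_right _ _).trans_lt hM
  have hM8 : 8 ≤ M := by
    have : 8 < M := by exact_mod_cast hM1
    omega
  have hM0 : 0 < M := by omega
  have hM' : (0 : ℝ) < M := by linarith
  set lam : ℝ := ((M : ℝ) ^ 3 - 1) / (M : ℝ) ^ 3 with hlam
  have hM3 : (1 : ℝ) < (M : ℝ) ^ 3 := one_lt_pow₀ (by linarith) (by norm_num)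
  have hlam0 : 0 < lam := by
    rw [hlam]
    apply div_pos <;> linarith
  have hlam1 : lam < 1 := by
    rw [hlam, div_lt_one (by linarith)]
    linarith
  obtain ⟨J, hJ⟩ := exists_pow_lt_of_lt_one (show 0 < δ / (32 * (M : ℝ) ^ 3) by positivity) hlam1
  obtain ⟨D1, hD1⟩ := exists_nat_gt (4 * (1 + (N : ℝ) ^ 2) / δ)
  refine ⟨max D1 (max (2 * M ^ J) (max (2 * N) 4)), ?_⟩
  intro D hD
  simp only [max_le_iff] at hD
  obtain ⟨hDa, hDb, hDc, hDd⟩ := hD
  have hD0 : 0 < D := by omega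
  have hD' : (0 : ℝ) < D := by exact_mod_cast hD0
  have hJD : M ^ J ≤ D := by omega
  -- the exceptional values
  let Vl : ℕ → Finset ℕ := fun l => (range D).filter fun v =>
    D ≤ 2 * (l * v % D) ∧ 2 * M * (l * v % D) < M * D + 4 * D
  let V : Finset ℕ := ((range D).filter fun v => N * v < D) ∪ (Icc 1 N).biUnion Vl
  have hV : (#V : ℝ) ≤ D / N + 1 + 2 * N * D / M + (N : ℝ) ^ 2 := by
    have h1 : #((range D).filter fun v => N * v < D) ≤ D / N + 1 := by
      have : ((range D).filter fun v => N * v < D) ⊆ range (D / N + 1) := by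
        intro v hv
        have hv2 := (mem_filter.1 hv).2
        rw [mem_range, Nat.lt_succ_iff, Nat.le_div_iff_mul_le hN0]
        rw [mul_comm]
        exact hv2.le
      refine (card_le_card this).trans ?_
      rw [card_range]
    have h2 : #((Icc 1 N).biUnion Vl) ≤ ∑ l ∈ Icc 1 N, (2 * D / (M * l) + 1) * l := by
      refine card_biUnion_le.trans (sum_le_sum fun l hl => ?_)
      exact card_V D M l hD0 hM0 (mem_Icc.1 hl).1
    have h3 : (#V : ℝ) ≤ ((D / N + 1 : ℕ) : ℝ) +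
        ((∑ l ∈ Icc 1 N, (2 * D / (M * l) + 1) * l : ℕ) : ℝ) := by
      exact_mod_cast (card_union_le _ _).trans (add_le_add h1 h2)
    have h4 : ((D / N + 1 : ℕ) : ℝ) ≤ D / N + 1 := by
      push_cast
      have := Nat.cast_div_le (α := ℝ) (m := D) (n := N)
      linarith
    have h5 : ((∑ l ∈ Icc 1 N, (2 * D / (M * l) + 1) * l : ℕ) : ℝ) ≤
        2 * N * D / M + (N : ℝ) ^ 2 := by
      push_cast
      calc ∑ l ∈ Icc 1 N, (((2 * D / (M * l) : ℕ) : ℝ) + 1) * (l : ℝ)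
          ≤ ∑ _l ∈ Icc 1 N, (2 * (D : ℝ) / M + N) := by
            refine sum_le_sum fun l hl => ?_
            obtain ⟨hl1, hl2⟩ := mem_Icc.1 hl
            have hl1' : (0 : ℝ) < l := by exact_mod_cast hl1
            have hl2' : (l : ℝ) ≤ N := by exact_mod_cast hl2
            have h6 : ((2 * D / (M * l) : ℕ) : ℝ) ≤ (2 * D) / (M * l) := by
              have := Nat.cast_div_le (α := ℝ) (m := 2 * D) (n := M * l)
              push_cast at this
              exact this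
            calc (((2 * D / (M * l) : ℕ) : ℝ) + 1) * (l : ℝ)
                ≤ ((2 * D) / (M * l) + 1) * l := by
                  apply mul_le_mul_of_nonneg_right _ hl1'.le
                  linarith
              _ = 2 * (D : ℝ) / M + l := by field_simp
              _ ≤ _ := by linarith
        _ = 2 * N * D / M + (N : ℝ) ^ 2 := by
            rw [sum_const, Nat.card_Icc, nsmul_eq_mul, Nat.add_sub_cancel]
            ring
    linarith
  -- inclusion
  have hsub : {d : Fin 4 → ℕ | ((∀ i, 0 < d i) ∧ ∑ i, d i = D) ∧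
        ¬ (Bstar d < 3 / 4 ↔ ¬ Window d ∧ ¬ Cong d)} ⊆
      (⋃ i : Fin 4, {d : Fin 4 → ℕ | d ∈ inst 4 D ∧ d i ∈ V}) ∪
      ⋃ kc : Fin 4 × (Fin 3 → Fin M), {d : Fin 4 → ℕ | d ∈ inst 4 D ∧
        (fun s : Fin 3 => d (kc.1.succAbove s)) ∈ badSet 3 M (fun i => (kc.2 i : ℕ)) D J} := by
    rintro d ⟨hd, hiff⟩
    by_contra hcon
    rw [Set.mem_union, Set.mem_iUnion, Set.mem_iUnion] at hcon
    push Not at hcon
    obtain ⟨hc1, hc2⟩ := hcon
    have hlt : ∀ i, d i < D := by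
      intro i
      obtain ⟨k0, hk0⟩ : ∃ k0 : Fin 4, k0 ≠ i := exists_ne i
      have h1 : ∑ x ∈ ({i, k0} : Finset (Fin 4)), d x ≤ ∑ x, d x :=
        sum_le_sum_of_subset (subset_univ _)
      rw [sum_pair hk0.symm, hd.2] at h1
      have := hd.1 k0
      omega
    have hVn : ∀ i, d i ∉ V := fun i hi => hc1 i ⟨hd, hi⟩
    apply hiff
    by_cases hw : Window d
    · have h34 : 3 / 4 ≤ Bstar d := by
        refine generic_bad D N M J hM8 hDb hDc d hd hw ?_ ?_ ?_
        · intro i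
          by_contra h
          push Not at h
          apply hVn i
          exact mem_union_left _ (mem_filter.2 ⟨mem_range.2 (hlt i), h⟩)
        · intro i l hl1 hl2 h
          apply hVn i
          apply mem_union_right
          rw [mem_biUnion]
          exact ⟨l, mem_Icc.2 ⟨hl1, hl2⟩, mem_filter.2 ⟨mem_range.2 (hlt i), h⟩⟩
        · intro k0 c h
          exact hc2 (k0, c) ⟨hd, h⟩
      constructor
      · intro h
        exact absurd h (not_lt.2 h34)
      · intro h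
        exact absurd hw h.1
    · have h1 := FourLettersClosed.result.1 d hd.1 hw
      rw [h1]
      exact ⟨fun h => ⟨hw, h⟩, fun h => h.2⟩
  -- counting
  have hfin : ∀ P : (Fin 4 → ℕ) → Prop, ({d : Fin 4 → ℕ | d ∈ inst 4 D ∧ P d}).Finite :=
    fun P => (inst_finite 4 D).subset fun d hd => hd.1
  have hcount : ((({d : Fin 4 → ℕ | ((∀ i, 0 < d i) ∧ ∑ i, d i = D) ∧
        ¬ (Bstar d < 3 / 4 ↔ ¬ Window d ∧ ¬ Cong d)}).ncard : ℕ) : ℝ) ≤
      4 * (#V * (D : ℝ) ^ 2) + 4 * (M : ℝ) ^ 3 * ((2 * D) ^ 3 * lam ^ J) := by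
    have h1 := Set.ncard_le_ncard hsub ((Set.finite_iUnion fun i => hfin _).union
      (Set.finite_iUnion fun kc => hfin _))
    have h2 := h1.trans (Set.ncard_union_le _ _)
    have h3 := h2.trans (add_le_add (Set.ncard_iUnion_le_of_fintype _)
      (Set.ncard_iUnion_le_of_fintype _))
    refine (Nat.cast_le.2 h3).trans ?_
    push_cast
    apply add_le_add
    · calc ∑ i : Fin 4, ((({d : Fin 4 → ℕ | d ∈ inst 4 D ∧ d i ∈ V}).ncard : ℕ) : ℝ)
          ≤ ∑ _i : Fin 4, (#V * (D : ℝ) ^ 2) := by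
            refine sum_le_sum fun i _ => ?_
            exact_mod_cast card_coord D V i
        _ = 4 * (#V * (D : ℝ) ^ 2) := by simp
    · calc _ ≤ ∑ _kc : Fin 4 × (Fin 3 → Fin M), ((2 * (D : ℝ)) ^ 3 * lam ^ J) := by
            refine sum_le_sum fun kc _ => ?_
            have h4 := card_digit D M J hM0 hD0 hJD kc.1 (fun i => (kc.2 i : ℕ))
              (fun i => (kc.2 i).2)
            have h5 : ((({d : Fin 4 → ℕ | d ∈ inst 4 D ∧ (fun s : Fin 3 =>
                d (kc.1.succAbove s)) ∈ badSet 3 M (fun i => (kc.2 i : ℕ)) D J}).ncard : ℕ) : ℝ) *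
                ((M : ℝ) ^ J) ^ 3 ≤ (2 * D) ^ 3 * ((M : ℝ) ^ 3 - 1) ^ J := by
              have h6 : ((M ^ 3 - 1 : ℕ) : ℝ) = (M : ℝ) ^ 3 - 1 := by
                rw [Nat.cast_sub (Nat.one_le_pow _ _ hM0)]
                push_cast
                ring
              rw [← h6]
              exact_mod_cast h4
            have h7 : (0 : ℝ) < ((M : ℝ) ^ J) ^ 3 := by positivity
            rw [← le_div_iff₀ h7] at h5
            refine h5.trans (le_of_eq ?_)
            rw [hlam, div_pow, ← pow_mul, ← pow_mul, mul_comm 3 J]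
            ring
        _ = 4 * (M : ℝ) ^ 3 * ((2 * D) ^ 3 * lam ^ J) := by
            rw [sum_const, card_univ, Fintype.card_prod, Fintype.card_fin, Fintype.card_fun,
              Fintype.card_fin, Fintype.card_fin, nsmul_eq_mul]
            push_cast
            ring
  have hall : (D : ℝ) ^ 3 ≤ 512 *
      (({d : Fin 4 → ℕ | (∀ i, 0 < d i) ∧ ∑ i, d i = D}).ncard : ℕ) := by
    have h1 := card_inst 3 D (by norm_num)
    have h5 : D ≤ 8 * (D / 4) := by omega
    have h2 : (D : ℝ) ≤ 8 * (D / 4 : ℕ) := by exact_mod_cast h5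
    calc (D : ℝ) ^ 3 ≤ (8 * (D / 4 : ℕ)) ^ 3 := pow_le_pow_left₀ hD'.le h2 3
      _ = 512 * ((D / 4 : ℕ) : ℝ) ^ 3 := by ring
      _ ≤ _ := by
          apply mul_le_mul_of_nonneg_left _ (by norm_num)
          exact_mod_cast h1
  have hfinal : 4 * (#V * (D : ℝ) ^ 2) + 4 * (M : ℝ) ^ 3 * ((2 * D) ^ 3 * lam ^ J) ≤
      (4 * δ) * (D : ℝ) ^ 3 := by
    have a1 : 4 * (D / (N : ℝ)) ≤ δ * D := by
      rw [div_lt_iff₀ hδ0] at hN2
      rw [← mul_div_assoc, div_le_iff₀ (by linarith)]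
      nlinarith
    have a2 : 4 * (2 * N * (D : ℝ) / M) ≤ δ * D := by
      rw [div_lt_iff₀ hδ0] at hM2
      rw [← mul_div_assoc, div_le_iff₀ hM']
      nlinarith
    have a3 : 4 * (1 + (N : ℝ) ^ 2) ≤ δ * D := by
      rw [div_lt_iff₀ hδ0] at hD1
      have : (D1 : ℝ) ≤ D := by exact_mod_cast hDa
      nlinarith
    have a4 : 4 * (M : ℝ) ^ 3 * ((2 * D) ^ 3 * lam ^ J) ≤ δ * (D : ℝ) ^ 3 := by
      rw [lt_div_iff₀ (by positivity)] at hJ
      have h8 : 0 < (D : ℝ) ^ 3 := by positivity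
      calc 4 * (M : ℝ) ^ 3 * ((2 * D) ^ 3 * lam ^ J) = (lam ^ J * (32 * (M : ℝ) ^ 3)) * (D : ℝ) ^ 3 := by
            ring
        _ ≤ δ * (D : ℝ) ^ 3 := mul_le_mul_of_nonneg_right hJ.le h8.le
    have a5 : 4 * (#V * (D : ℝ) ^ 2) ≤ 3 * δ * (D : ℝ) ^ 3 := by
      have h9 : 4 * (#V : ℝ) ≤ 3 * δ * D := by linarith
      calc 4 * (#V * (D : ℝ) ^ 2) = (4 * #V) * (D : ℝ) ^ 2 := by ring
        _ ≤ (3 * δ * D) * (D : ℝ) ^ 2 := mul_le_mul_of_nonneg_right h9 (by positivity)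
        _ = 3 * δ * (D : ℝ) ^ 3 := by ring
    linarith
  calc _ ≤ 4 * (#V * (D : ℝ) ^ 2) + 4 * (M : ℝ) ^ 3 * ((2 * D) ^ 3 * lam ^ J) := hcount
    _ ≤ (4 * δ) * (D : ℝ) ^ 3 := hfinal
    _ ≤ (4 * δ) * (512 * (({d : Fin 4 → ℕ | (∀ i, 0 < d i) ∧ ∑ i, d i = D}).ncard : ℕ)) :=
        mul_le_mul_of_nonneg_left hall (by positivity)
    _ = ε * (({d : Fin 4 → ℕ | (∀ i, 0 < d i) ∧ ∑ i, d i = D}).ncard : ℕ) := by
        rw [hδ]
        ring

end Pool.Agent.Results.MP_3a77f1_co.FourAlmostAll
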