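import Mathlib
import Pool.Agent.H86.BD.Family

set_option autoImplicit false

namespace Pool.Agent.Results.MP_3a77f1_co.InfiniteFamily

open Finset Pool.Agent.K7.H73.BD Pool.Agent.Results.MP_3a77f1_co.AtMostThreeLetters
open Pool.Agent.H86.BD

/-- For all `a, b, m ≥ 1` the instance `(a, b, 2b, 4b, …, 2^(m-1) b)` has
`B^* ≤ 3/4 - 1/(4 (2^m - 1))`; in particular for every number of letters there are infinitely
many pairwise non-proportional instances with `B^* < 3/4`. -/
theorem result (a b m : ℕ) (ha : 1 ≤ a) (hb : 1 ≤ b) (hm : 1 ≤ m) :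
    Bstar (Fin.cons a (fun i : Fin m => b * 2 ^ (i : ℕ)) : Fin (m + 1) → ℕ) ≤
      3 / 4 - 1 / (4 * (2 ^ m - 1)) := by
  classical
  set d : Fin (m + 1) → ℕ := Fin.cons a (fun i : Fin m => b * 2 ^ (i : ℕ)) with hd
  set N := 2 ^ m - 1 with hN
  have h2m : 2 ^ 1 ≤ 2 ^ m := Nat.pow_le_pow_right (by norm_num) hm
  have hN1 : 1 ≤ N := by omega
  set B := b * N with hB
  have hBsum : ∑ i : Fin m, b * 2 ^ (i : ℕ) = B := by
    rw [← mul_sum, hB]
    congr 1
    rw [Fin.sum_univ_eq_sum_range (fun i => 2 ^ i) m]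
    have := Nat.geomSum_eq (m := 2) (by norm_num) m
    simpa using this
  have hDsum : ∑ i, d i = a + B := by
    rw [Fin.sum_univ_succ, hd]
    simp only [Fin.cons_zero, Fin.cons_succ]
    rw [hBsum]
  set D := ∑ i, d i with hD
  have hD0 : 0 < D := by omega
  have hBD : B < D := by omega
  have hD' : (0 : ℝ) < D := by exact_mod_cast hD0
  -- the counting function of the second letter of `(a, B)`
  let y : ℕ → ℕ := fun k => (2 * k * B + D) / (2 * D)
  have hy0 : y 0 = 0 := by
    simp only [y]
    apply Nat.div_eq_of_lt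
    omega
  have hyD : y D = B := by
    simp only [y]
    have : 2 * D * B + D = D + 2 * D * B := by ring
    rw [this, Nat.add_mul_div_left _ _ (by omega), Nat.div_eq_of_lt (by omega), zero_add]
  have hymono : ∀ k, y k ≤ y (k + 1) := by
    intro k
    simp only [y]
    apply Nat.div_le_div_right
    have : 2 * (k + 1) * B = 2 * k * B + 2 * B := by ring
    omega
  have hystep : ∀ k, y (k + 1) ≤ y k + 1 := by
    intro k
    simp only [y]
    have h1 : (2 * k * B + D) / (2 * D) + 1 = (2 * k * B + D + 2 * D) / (2 * D) :=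
      (Nat.add_div_right _ (by omega)).symm
    rw [h1]
    apply Nat.div_le_div_right
    have : 2 * (k + 1) * B = 2 * k * B + 2 * B := by ring
    omega
  have hyle : ∀ k, y k ≤ k := by
    intro k
    induction k with
    | zero => rw [hy0]
    | succ k ih => exact (hystep k).trans (Nat.succ_le_succ ih)
  have hydev : ∀ k : ℕ, |(y k : ℝ) - k * ((B : ℝ) / D)| ≤ 1 / 2 := by
    intro k
    have h1 := Nat.div_add_mod (2 * k * B + D) (2 * D)
    have h2 := Nat.mod_lt (2 * k * B + D) (show 0 < 2 * D by omega)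
    set ρ := (2 * k * B + D) % (2 * D) with hρ
    have h3 : 2 * (D : ℝ) * y k + ρ = 2 * k * B + D := by exact_mod_cast h1
    have h4 : (ρ : ℝ) < 2 * D := by exact_mod_cast h2
    have h5 : (0 : ℝ) ≤ ρ := by positivity
    have h6 : (y k : ℝ) - k * ((B : ℝ) / D) = (D - ρ) / (2 * D) := by
      field_simp
      linarith
    rw [h6, abs_le]
    constructor
    · rw [neg_le, ← neg_div, div_le_div_iff₀ (by positivity) (by norm_num)]
      linarith
    · rw [div_le_div_iff₀ (by positivity) (by norm_num)]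
      linarith
  -- the counting functions
  let x : Fin (m + 1) → ℕ → ℕ := Fin.cons (fun k => k - y k)
    (fun i : Fin m => fun k => zc m (m - 1 - i) (y k))
  have hx0 : ∀ k, x 0 k = k - y k := fun k => rfl
  have hxs : ∀ (i : Fin m) k, x i.succ k = zc m (m - 1 - i) (y k) := fun i k => rfl
  obtain ⟨s, hs⟩ := exists_word (m + 1) D x
    (by
      intro i
      refine Fin.cases ?_ (fun i => ?_) i
      · rw [hx0]
        exact Nat.zero_sub _
      · rw [hxs, hy0]
        unfold zc
        simp)
    (by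
      intro i k _
      refine Fin.cases ?_ (fun i => ?_) i
      · rw [hx0, hx0]
        have := hystep k
        have := hyle k
        omega
      · rw [hxs, hxs]
        rcases Nat.lt_or_ge (y k) (y (k + 1)) with h | h
        · have h1 : y (k + 1) = y k + 1 := le_antisymm (hystep k) h
          rw [h1]
          exact zc_mono m _ _ hm (by omega)
        · have h1 : y (k + 1) = y k := le_antisymm h (hymono k)
          rw [h1])
    (by
      intro k _
      rw [Fin.sum_univ_succ, hx0]
      simp only [hxs]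
      rw [sum_zc m (y k) hm]
      have := hyle k
      omega)
  -- the word `s` is a sequence for `d`
  have hfull : ∀ i, occ s i D = (Finset.univ.filter (fun t => s t = i)).card := by
    intro i
    unfold occ
    congr 1
    ext t
    simp
  have hseq : IsSeq d s := by
    intro i
    rw [← hfull, hs i D le_rfl]
    refine Fin.cases ?_ (fun i => ?_) i
    · rw [hx0, hyD]
      simp only [hd, Fin.cons_zero]
      omega
    · rw [hxs, hyD]
      simp only [hd, Fin.cons_succ]
      unfold zc
      rw [← hN, hB, Nat.mul_mod_left, Nat.mul_div_cancel _ hN1]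
      simp only [Nat.zero_div, Nat.sub_self, zero_add]
      have : m - 1 - (m - 1 - (i : ℕ)) = i := by
        have := i.2
        omega
      rw [this, mul_comm]
  have hNR : (N : ℝ) = 2 ^ m - 1 := by
    rw [hN, Nat.cast_sub (by omega)]
    push_cast
    ring
  have hN1' : (1 : ℝ) ≤ N := by exact_mod_cast hN1
  refine le_trans (csInf_le (bdd d) ⟨s, hseq, rfl⟩) (maxDev_le d s _ (by omega) hD0 ?_)
  intro i k hk
  rw [hs i k hk, ← hNR]
  have hlow : (1 : ℝ) / 2 ≤ 3 / 4 - 1 / (4 * N) := by
    have : 1 / (4 * (N : ℝ)) ≤ 1 / 4 := by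
      apply one_div_le_one_div_of_le (by norm_num)
      linarith
    linarith
  refine Fin.cases ?_ (fun i => ?_) i
  · rw [hx0, Nat.cast_sub (hyle k)]
    have h1 : ((d 0 : ℕ) : ℝ) / D = 1 - B / D := by
      have h2 : (D : ℝ) = a + B := by exact_mod_cast hDsum
      simp only [hd, Fin.cons_zero]
      field_simp
      linarith
    rw [h1]
    have h2 : (k : ℝ) - y k - k * (1 - B / D) = -((y k : ℝ) - k * ((B : ℝ) / D)) := by ring
    rw [h2, abs_neg]
    exact (hydev k).trans hlow
  · rw [hxs]
    have h1 := zc_dev m (m - 1 - i) (y k) hm (by omega)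
    have h2 : m - 1 - (m - 1 - (i : ℕ)) = i := by
      have := i.2
      omega
    rw [h2, ← hN] at h1
    set z := zc m (m - 1 - i) (y k) with hz
    have h3 : |(2 : ℝ) * N * z - 2 * (y k * 2 ^ (i : ℕ))| ≤ N - 1 := by
      have : ((|((2 : ℤ) * N * z - 2 * (y k * (2 ^ (i : ℕ) : ℕ)))| : ℤ) : ℝ) ≤ (((N : ℤ) - 1 : ℤ) : ℝ) := by
        exact_mod_cast h1
      push_cast at this
      exact this
    have h4 : |(z : ℝ) - y k * (2 ^ (i : ℕ) / N)| ≤ 1 / 2 - 1 / (2 * N) := by
      have h5 : (z : ℝ) - y k * (2 ^ (i : ℕ) / N) =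
          ((2 : ℝ) * N * z - 2 * (y k * 2 ^ (i : ℕ))) / (2 * N) := by
        field_simp
      rw [h5, abs_div, abs_of_pos (show (0 : ℝ) < 2 * N by linarith),
        div_le_iff₀ (by linarith)]
      refine h3.trans (le_of_eq ?_)
      field_simp
    have h5 : ((d i.succ : ℕ) : ℝ) / D = (2 ^ (i : ℕ) / N) * (B / D) := by
      simp only [hd, Fin.cons_succ, hB]
      push_cast
      field_simp
    rw [h5]
    have h6 : (z : ℝ) - k * (2 ^ (i : ℕ) / N * (B / D)) =
        ((z : ℝ) - y k * (2 ^ (i : ℕ) / N)) + (2 ^ (i : ℕ) / N) * (y k - k * (B / D)) := by ring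
    rw [h6]
    refine (abs_add_le _ _).trans ?_
    rw [abs_mul, abs_of_nonneg (show (0 : ℝ) ≤ 2 ^ (i : ℕ) / N by positivity)]
    have h7 : (2 : ℝ) ^ (i : ℕ) / N ≤ (N + 1) / (2 * N) := by
      rw [div_le_div_iff₀ (by linarith) (by linarith)]
      have h8 : (2 : ℝ) ^ (i : ℕ) * 2 ≤ N + 1 := by
        rw [hNR]
        have : (2 : ℝ) ^ ((i : ℕ) + 1) ≤ 2 ^ m :=
          pow_le_pow_right₀ (by norm_num) (by have := i.2; omega)
        rw [pow_succ] at this
        linarith
      nlinarith
    have h9 : (2 : ℝ) ^ (i : ℕ) / N * |(y k : ℝ) - k * (B / D)| ≤ (N + 1) / (2 * N) * (1 / 2) :=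
      mul_le_mul h7 (hydev k) (abs_nonneg _) (by positivity)
    have h10 : 1 / 2 - 1 / (2 * (N : ℝ)) + (N + 1) / (2 * N) * (1 / 2) = 3 / 4 - 1 / (4 * N) := by
      field_simp
      ring
    linarith

end Pool.Agent.Results.MP_3a77f1_co.InfiniteFamily
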